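import Pool.Agent.Y142.ZD.Stm

set_option autoImplicit false

/-! Project OI (helper282), job FDB. -/

open Matrix Polynomial
open Pool.Agent.Y142.ZO Pool.Agent.Y142.ZI

namespace Pool.Agent.Q238.OI.FDB

/-- the `4 × 4` block -/
def T4 {F : Type} [Field F] (a b c d : F) : Matrix (Fin 4) (Fin 4) F :=
  !![0, a, 0, 0; b, 0, 0, 0; 0, 0, 0, c; 0, 0, d, 0]

theorem charpoly_T4 {F : Type} [Field F] (a b c d : F) :
    (T4 a b c d).charpoly = (X ^ 2 - C (a * b)) * (X ^ 2 - C (c * d)) := by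
  unfold T4 Matrix.charpoly Matrix.charmatrix
  simp [Matrix.det_succ_row_zero, Fin.sum_univ_succ, Fin.succAbove, Matrix.submatrix]
  ring

theorem skew_T4 {F : Type} [Field F] (d : Fin 4 → F) (a b c e : F) (h1 : d 0 * a + d 1 * b = 0)
    (h2 : d 2 * c + d 3 * e = 0) :
    (diagonal d * T4 a b c e)ᵀ = -(diagonal d * T4 a b c e) := by
  have h1' : d 0 * a = -(d 1 * b) := eq_neg_of_add_eq_zero_left h1
  have h1'' : d 1 * b = -(d 0 * a) := eq_neg_of_add_eq_zero_right h1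
  have h2' : d 2 * c = -(d 3 * e) := eq_neg_of_add_eq_zero_left h2
  have h2'' : d 3 * e = -(d 2 * c) := eq_neg_of_add_eq_zero_right h2
  ext i j
  rw [transpose_apply, Matrix.neg_apply, diagonal_mul, diagonal_mul]
  fin_cases i <;> fin_cases j <;> simp [T4, h1', h2']

section
variable {ℓ : ℕ} [Fact ℓ.Prime]

theorem norm_adj (d0 d1 : ℚ_[ℓ]) (h0 : d0 ≠ 0) (h1 : d1 ≠ 0) (e : ℤ)
    (he : Even (Padic.valuation (d0 * d1) - e)) :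
    ∃ r : ℚ_[ℓ], r ≠ 0 ∧ ‖-(d1 / d0) * r ^ 2‖ = (ℓ : ℝ) ^ (-e) := by
  have hℓ : (ℓ : ℚ_[ℓ]) ≠ 0 := by exact_mod_cast (Fact.out : ℓ.Prime).ne_zero
  have hℓr : (ℓ : ℝ) ≠ 0 := by exact_mod_cast (Fact.out : ℓ.Prime).ne_zero
  rw [Padic.valuation_mul h0 h1] at he
  obtain ⟨j, hj⟩ := he
  refine ⟨(ℓ : ℚ_[ℓ]) ^ (j + e - Padic.valuation d1), zpow_ne_zero _ hℓ, ?_⟩
  rw [norm_mul, norm_neg, norm_div, norm_pow, norm_zpow, Padic.norm_p, Padic.norm_eq_zpow_neg_valuation h0,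
    Padic.norm_eq_zpow_neg_valuation h1, _root_.inv_zpow', ← _root_.zpow_natCast, ← _root_.zpow_mul, ← _root_.zpow_sub₀ hℓr,
    ← _root_.zpow_add₀ hℓr]
  congr 1
  push_cast
  linarith

/-- the construction -/
theorem build {m N : ℕ} (hN : N = 2 * m + 4) (B : Matrix (Fin N) (Fin N) ℚ_[ℓ])
    (Cc : Matrix (Fin N) ((Fin m ⊕ Fin m) ⊕ Fin 4) ℚ_[ℓ])
    (D : Matrix ((Fin m ⊕ Fin m) ⊕ Fin 4) (Fin N) ℚ_[ℓ]) (d : Fin 4 → ℚ_[ℓ])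
    (hCD : Cc * D = 1) (hDC : D * Cc = 1)
    (hB : Ccᵀ * B * Cc = fromBlocks (fromBlocks 0 1 1 0) 0 0 (diagonal d))
    (a b c e : ℚ_[ℓ]) (h1 : d 0 * a + d 1 * b = 0) (h2 : d 2 * c + d 3 * e = 0)
    (A : Matrix (Fin m) (Fin m) ℚ_[ℓ]) :
    ∃ T : Matrix (Fin N) (Fin N) ℚ_[ℓ], Skew B T ∧
      T.charpoly = Pool.Agent.Y142.ZD.RA (a * b) (c * e) A := by
  set B0 : Matrix ((Fin m ⊕ Fin m) ⊕ Fin 4) ((Fin m ⊕ Fin m) ⊕ Fin 4) ℚ_[ℓ] :=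
    fromBlocks (fromBlocks 0 1 1 0) 0 0 (diagonal d) with hB0
  set T0 : Matrix ((Fin m ⊕ Fin m) ⊕ Fin 4) ((Fin m ⊕ Fin m) ⊕ Fin 4) ℚ_[ℓ] :=
    fromBlocks (fromBlocks A 0 0 (-Aᵀ)) 0 0 (T4 a b c e) with hT0
  have hsk : (B0 * T0)ᵀ = -(B0 * T0) := by
    rw [hB0, hT0, fromBlocks_multiply, fromBlocks_multiply]
    simp only [Matrix.zero_mul, Matrix.mul_zero, add_zero, zero_add, Matrix.one_mul]
    rw [fromBlocks_transpose, fromBlocks_transpose, skew_T4 d a b c e h1 h2, fromBlocks_neg,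
      fromBlocks_neg]
    simp
  have hBC : B * Cc = Dᵀ * B0 := by
    rw [← hB, ← Matrix.mul_assoc, ← Matrix.mul_assoc, ← transpose_mul, hCD, transpose_one,
      Matrix.one_mul]
  refine ⟨Cc * (T0 * D), ?_, ?_⟩
  · unfold Skew
    have e1 : B * (Cc * (T0 * D)) = Dᵀ * (B0 * T0) * D := by
      rw [← Matrix.mul_assoc, hBC]
      simp only [Matrix.mul_assoc]
    rw [e1, transpose_mul, transpose_mul, hsk, transpose_transpose, Matrix.neg_mul,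
      Matrix.mul_neg]
    simp only [Matrix.mul_assoc]
  · have hcard : Fintype.card ((Fin m ⊕ Fin m) ⊕ Fin 4) = Fintype.card (Fin N) := by
      simp only [Fintype.card_sum, Fintype.card_fin]
      omega
    rw [Matrix.charpoly_mul_comm_of_le _ _ hcard.le, hcard, Nat.sub_self, pow_zero, one_mul,
      Matrix.mul_assoc, hDC, Matrix.mul_one, hT0, Matrix.charpoly_fromBlocks_zero₁₂,
      Matrix.charpoly_fromBlocks_zero₁₂, charpoly_T4, ← transpose_neg, Matrix.charpoly_transpose]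
    unfold Pool.Agent.Y142.ZD.RA
    ring

theorem half {m N : ℕ} (hN : N = 2 * m + 4) (B : Matrix (Fin N) (Fin N) ℚ_[ℓ])
    (Cc : Matrix (Fin N) ((Fin m ⊕ Fin m) ⊕ Fin 4) ℚ_[ℓ])
    (D : Matrix ((Fin m ⊕ Fin m) ⊕ Fin 4) (Fin N) ℚ_[ℓ]) (d : Fin 4 → ℚ_[ℓ])
    (hCD : Cc * D = 1) (hDC : D * Cc = 1) (hd : ∀ i, d i ≠ 0)
    (hB : Ccᵀ * B * Cc = fromBlocks (fromBlocks 0 1 1 0) 0 0 (diagonal d)) (e : ℤ)
    (h1 : Even (Padic.valuation (d 0 * d 1) - e)) (h2 : Even (Padic.valuation (d 2 * d 3) - e)) :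
    ∃ u₁ u₂ : ℚ_[ℓ], ‖u₁‖ = (ℓ : ℝ) ^ (-e) ∧ ‖u₂‖ = (ℓ : ℝ) ^ (-e) ∧
    ∀ (s₁ s₂ : ℚ_[ℓ]) (A : Matrix (Fin m) (Fin m) ℚ_[ℓ]), s₁ ≠ 0 → s₂ ≠ 0 →
      ∃ T : Matrix (Fin N) (Fin N) ℚ_[ℓ], Skew B T ∧
        T.charpoly = Pool.Agent.Y142.ZD.RA (u₁ * s₁ ^ 2) (u₂ * s₂ ^ 2) A := by
  obtain ⟨r₁, -, hr1⟩ := norm_adj (d 0) (d 1) (hd 0) (hd 1) e h1
  obtain ⟨r₂, -, hr2⟩ := norm_adj (d 2) (d 3) (hd 2) (hd 3) e h2
  refine ⟨_, _, hr1, hr2, ?_⟩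
  intro s₁ s₂ A _ _
  obtain ⟨T, hT1, hT2⟩ := build hN B Cc D d hCD hDC hB (-(d 1 / d 0) * (r₁ * s₁)) (r₁ * s₁)
    (-(d 3 / d 2) * (r₂ * s₂)) (r₂ * s₂)
    (by have := hd 0; field_simp; ring) (by have := hd 2; field_simp; ring) A
  refine ⟨T, hT1, ?_⟩
  rw [hT2]
  congr 1 <;> ring

end

theorem t (hWE : Pool.Agent.Y142.ZD.S_WE) : Pool.Agent.Y142.ZD.S_FDB := by
  intro ℓ _ hℓ m N hN B hBt hBd hBe
  obtain ⟨⟨C₁, D₁, d₁, hCD, hDC, hd, ho1, ho2, hB1⟩, C₂, D₂, d₂, hCD', hDC', hd', he1, he2, hB2⟩ :=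
    hWE ℓ hℓ m N hN B hBt hBd hBe
  constructor
  · obtain ⟨u₁, u₂, h1, h2, h3⟩ := half hN B C₁ D₁ d₁ hCD hDC hd hB1 1
      (ho1.sub_odd odd_one) (ho2.sub_odd odd_one)
    refine ⟨u₁, u₂, ?_, ?_, h3⟩
    · rw [h1, _root_.zpow_neg_one]
    · rw [h2, _root_.zpow_neg_one]
  · obtain ⟨u₁, u₂, h1, h2, h3⟩ := half hN B C₂ D₂ d₂ hCD' hDC' hd' hB2 0
      (by rw [sub_zero]; exact he1) (by rw [sub_zero]; exact he2)
    refine ⟨u₁, u₂, ?_, ?_, h3⟩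
    · rw [h1, neg_zero, zpow_zero]
    · rw [h2, neg_zero, zpow_zero]

end Pool.Agent.Q238.OI.FDB
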