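import Pool.Agent.Y142.ZS.Stm

set_option autoImplicit false

/-! Project OI (helper282), job TWIST. -/

open Polynomial
open Pool.Agent.Y142.ZO Pool.Agent.Y142.ZI

namespace Pool.Agent.Q238.OI.TWIST

section
variable {ℓ : ℕ} [Fact ℓ.Prime]

/-- all coefficients have norm at most `r` -/
def Bd (r : ℝ) (p : ℚ_[ℓ][X]) : Prop := ∀ j, ‖p.coeff j‖ ≤ r

theorem Bd.add {r : ℝ} {p q : ℚ_[ℓ][X]} (hp : Bd r p) (hq : Bd r q) : Bd r (p + q) := fun j => by
  rw [coeff_add]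
  exact (IsUltrametricDist.norm_add_le_max _ _).trans (max_le (hp j) (hq j))

theorem Bd.sum {r : ℝ} (hr : 0 ≤ r) {ι : Type} (s : Finset ι) {f : ι → ℚ_[ℓ][X]}
    (h : ∀ i ∈ s, Bd r (f i)) : Bd r (∑ i ∈ s, f i) := fun j => by
  rw [finsetSum_coeff]
  exact IsUltrametricDist.norm_sum_le_of_forall_le_of_nonneg hr fun i hi => h i hi j

theorem Bd.mul {r t : ℝ} (hr : 0 ≤ r) (ht : 0 ≤ t) {p q : ℚ_[ℓ][X]} (hp : Bd r p)
    (hq : Bd t q) : Bd (r * t) (p * q) := fun j => by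
  rw [coeff_mul]
  refine IsUltrametricDist.norm_sum_le_of_forall_le_of_nonneg (mul_nonneg hr ht) fun i _ => ?_
  rw [norm_mul]
  exact mul_le_mul (hp _) (hq _) (norm_nonneg _) hr

theorem Bd.mono {r t : ℝ} (h : r ≤ t) {p : ℚ_[ℓ][X]} (hp : Bd r p) : Bd t p :=
  fun j => (hp j).trans h

theorem Bd.C {a : ℚ_[ℓ]} : Bd ‖a‖ (Polynomial.C a) := fun j => by
  rw [coeff_C]
  split_ifs
  · exact le_rfl
  · rw [norm_zero]; exact norm_nonneg _

theorem Bd.X : Bd (ℓ := ℓ) 1 (Polynomial.X) := fun j => by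
  rw [coeff_X]
  split_ifs
  · rw [norm_one]
  · rw [norm_zero]; exact zero_le_one

theorem Bd.one : Bd (ℓ := ℓ) 1 (1 : ℚ_[ℓ][X]) := fun j => by
  rw [coeff_one]
  split_ifs
  · rw [norm_one]
  · rw [norm_zero]; exact zero_le_one

theorem Bd.pow {p : ℚ_[ℓ][X]} (hp : Bd 1 p) (n : ℕ) : Bd 1 (p ^ n) := by
  induction n with
  | zero => rw [pow_zero]; exact Bd.one
  | succ n ih =>
    rw [pow_succ]
    have := ih.mul zero_le_one zero_le_one hp
    rwa [one_mul] at this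

/-- difference of powers -/
theorem Bd.pow_sub {p q : ℚ_[ℓ][X]} {δ : ℝ} (hδ : 0 ≤ δ) (hp : Bd 1 p) (hq : Bd 1 q)
    (h : Bd δ (p - q)) (n : ℕ) : Bd δ (p ^ n - q ^ n) := by
  induction n with
  | zero => rw [pow_zero, pow_zero, sub_self]; intro j; rw [coeff_zero, norm_zero]; exact hδ
  | succ n ih =>
    have e : p ^ (n + 1) - q ^ (n + 1) = p ^ n * (p - q) + (p ^ n - q ^ n) * q := by ring
    rw [e]
    refine Bd.add ?_ ?_
    · have := (hp.pow n).mul zero_le_one hδ h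
      rwa [one_mul] at this
    · have := ih.mul hδ zero_le_one hq
      rwa [mul_one] at this

/-- substitution of `p` close to `X` -/
theorem Bd.comp_sub {R p : ℚ_[ℓ][X]} {δ M : ℝ} (hδ : 0 ≤ δ) (hM : 0 ≤ M) (hR : Bd M R)
    (hp : Bd 1 p) (h : Bd δ (p - Polynomial.X)) : Bd (M * δ) (R.comp p - R) := by
  have e : R.comp p - R = ∑ i ∈ Finset.range (R.natDegree + 1),
      Polynomial.C (R.coeff i) * (p ^ i - Polynomial.X ^ i) := by
    conv_lhs => rw [comp, eval₂_eq_sum_range]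
    conv_lhs => rw [R.as_sum_range_C_mul_X_pow]
    simp only [mul_sub]
    rw [Finset.sum_sub_distrib]
    conv_rhs => rw [← R.as_sum_range_C_mul_X_pow]
    conv_lhs => rw [← R.as_sum_range_C_mul_X_pow]
  rw [e]
  refine Bd.sum (mul_nonneg hM hδ) _ fun i _ => ?_
  refine Bd.mul hM hδ ?_ (Bd.pow_sub hδ hp Bd.X h i)
  exact Bd.C.mono (hR i)

theorem Bd.comp {R p : ℚ_[ℓ][X]} {M : ℝ} (hM : 0 ≤ M) (hR : Bd M R)
    (hp : Bd 1 p) : Bd M (R.comp p) := by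
  rw [Polynomial.comp, eval₂_eq_sum_range]
  refine Bd.sum hM _ fun i _ => ?_
  have := Bd.mul hM zero_le_one (Bd.C.mono (hR i)) (hp.pow i)
  rwa [mul_one] at this

/-- square roots of elements close to `1` -/
theorem sqrt_near (hℓ : ℓ ≠ 2) (c : ℚ_[ℓ]) (hc : ‖c - 1‖ < 1) :
    ∃ s : ℚ_[ℓ], s * s = c ∧ ‖s - 1‖ = ‖c - 1‖ ∧ ‖s‖ = 1 := by
  have h2 : ‖(2 : ℤ_[ℓ])‖ = 1 := by
    have h := (PadicInt.norm_intCast_eq_one_iff (p := ℓ) (z := 2)).2 (by
      have := (Nat.coprime_primes (Fact.out : ℓ.Prime) Nat.prime_two).2 hℓ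
      exact (Nat.isCoprime_iff_coprime.2 this).symm)
    exact_mod_cast h
  have hcn : ‖c‖ ≤ 1 := by
    have : c = (c - 1) + 1 := by ring
    rw [this]
    exact (IsUltrametricDist.norm_add_le_max _ _).trans (max_le hc.le (by rw [norm_one]))
  set c' : ℤ_[ℓ] := ⟨c, hcn⟩ with hc'
  set f : Polynomial ℤ_[ℓ] := Polynomial.X ^ 2 - Polynomial.C c' with hf
  have hf1 : f.aeval (1 : ℤ_[ℓ]) = 1 - c' := by simp [hf]
  have hf2 : f.derivative.aeval (1 : ℤ_[ℓ]) = 2 := by simp [hf, one_add_one_eq_two]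
  have hn1 : ‖(1 : ℤ_[ℓ]) - c'‖ = ‖c - 1‖ := by
    rw [norm_sub_rev]
    rfl
  obtain ⟨z, hz1, hz2, -, -⟩ := hensels_lemma (p := ℓ) (F := f) (a := (1 : ℤ_[ℓ])) (by
    rw [hf1, hf2, h2, hn1, one_pow]; exact hc)
  rw [hf2, h2] at hz2
  have hzz : z * z = c' := by
    have : f.aeval z = z ^ 2 - c' := by simp [hf]
    rw [this, sub_eq_zero] at hz1
    rw [← hz1, pow_two]
  have hz3 : ‖z + 1‖ = 1 := by
    have e : z + 1 = 2 + (z - 1) := by ring
    rw [e]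
    rw [IsUltrametricDist.norm_add_eq_max_of_norm_ne_norm (by rw [h2]; exact hz2.ne'), h2]
    exact max_eq_left hz2.le
  refine ⟨(z : ℚ_[ℓ]), ?_, ?_, ?_⟩
  · have := congrArg (fun t : ℤ_[ℓ] => (t : ℚ_[ℓ])) hzz
    simpa using this
  · have h : (z - 1) * (z + 1) = c' - 1 := by rw [← hzz]; ring
    have h' := congrArg norm h
    rw [norm_mul, hz3, mul_one] at h'
    exact h'
  · have h1 : ‖c‖ = 1 := by
      have e : c = 1 + (c - 1) := by ring
      rw [e, IsUltrametricDist.norm_add_eq_max_of_norm_ne_norm (by rw [norm_one]; exact hc.ne'),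
        norm_one]
      exact max_eq_left hc.le
    have h3 := congrArg norm hzz
    rw [norm_mul] at h3
    have h4 : ‖c'‖ = 1 := h1
    rw [h4] at h3
    have h5 : ‖z‖ = 1 := by nlinarith [norm_nonneg z]
    exact h5

theorem resc_twist (k : ℕ) (Q : ℚ_[ℓ][X]) (s : ℚ_[ℓ]) (hs : s ≠ 0) :
    resc ℓ k (C ((s ^ Q.natDegree)⁻¹) * Q.comp (C s * X)) =
      C ((s ^ Q.natDegree)⁻¹) * (resc ℓ k Q).comp (C s * X + C ((s - 1) * ((ℓ : ℚ_[ℓ]) ^ k)⁻¹)) := by
  have hℓ0 : (ℓ : ℚ_[ℓ]) ≠ 0 := by exact_mod_cast (Fact.out : ℓ.Prime).ne_zero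
  have hk : ((ℓ : ℚ_[ℓ]) ^ k) ≠ 0 := pow_ne_zero _ hℓ0
  have hdeg : (C ((s ^ Q.natDegree)⁻¹) * Q.comp (C s * X)).natDegree = Q.natDegree := by
    rw [natDegree_C_mul (inv_ne_zero (pow_ne_zero _ hs)), natDegree_comp, natDegree_C_mul hs,
      natDegree_X, mul_one]
  unfold resc
  rw [hdeg]
  simp only [mul_comp, comp_assoc, add_comp, one_comp, C_comp, X_comp]
  have e : (1 : ℚ_[ℓ][X]) + C ((ℓ : ℚ_[ℓ]) ^ k) * (C s * X + C ((s - 1) * ((ℓ : ℚ_[ℓ]) ^ k)⁻¹)) =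
      C s * (1 + C ((ℓ : ℚ_[ℓ]) ^ k) * X) := by
    have e1 : C ((ℓ : ℚ_[ℓ]) ^ k) * C ((s - 1) * ((ℓ : ℚ_[ℓ]) ^ k)⁻¹) = C s - 1 := by
      rw [← C_mul, mul_comm (s - 1), ← mul_assoc, mul_inv_cancel₀ hk, one_mul, C_sub, C_1]
    rw [mul_add, e1]
    ring
  rw [e]
  ring

end

theorem t : Pool.Agent.Y142.ZS.S_TWIST := by
  intro ℓ _ hℓ R₀ hR₀ ε hε
  set n := R₀.natDegree with hn
  set M : ℝ := 1 + ∑ i ∈ Finset.range (n + 1), ‖R₀.coeff i‖ with hM
  have hM1 : 1 ≤ M := by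
    have : 0 ≤ ∑ i ∈ Finset.range (n + 1), ‖R₀.coeff i‖ :=
      Finset.sum_nonneg fun i _ => norm_nonneg _
    linarith
  have hM0 : 0 < M := by linarith
  have hR₀M : Bd M R₀ := by
    intro j
    by_cases hj : j < n + 1
    · have := Finset.single_le_sum (f := fun i => ‖R₀.coeff i‖) (fun i _ => norm_nonneg _)
        (Finset.mem_range.2 hj)
      linarith
    · rw [coeff_eq_zero_of_natDegree_lt (by omega), norm_zero]
      exact hM0.le
  refine ⟨min 1 (ε / M), lt_min one_pos (div_pos hε hM0), ?_⟩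
  set ε' := min 1 (ε / M) with hε'
  have hε'1 : ε' ≤ 1 := min_le_left _ _
  have hε'M : M * ε' ≤ ε := by
    have := min_le_right 1 (ε / M)
    rw [le_div_iff₀ hM0] at this
    rw [mul_comm]; exact this
  intro k Q c hk hQ hQn hc0 hc hroots hRes
  have hℓ1 : (1 : ℝ) < ℓ := by exact_mod_cast (Fact.out : ℓ.Prime).one_lt
  have hℓk : 0 < (ℓ : ℝ) ^ k := pow_pos (by linarith) _
  have hℓk1 : 1 ≤ (ℓ : ℝ) ^ k := one_le_pow₀ hℓ1.le
  have hinv : ((ℓ : ℝ) ^ k)⁻¹ ≤ 1 := inv_le_one_of_one_le₀ hℓk1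
  have hε'0 : 0 < ε' := lt_min one_pos (div_pos hε hM0)
  have hc1 : ‖c - 1‖ < ε' := lt_of_lt_of_le hc (by nlinarith)
  obtain ⟨s, hs1, hs2, hs3⟩ := sqrt_near hℓ c (lt_of_lt_of_le hc1 hε'1)
  have hs0 : s ≠ 0 := by rintro rfl; rw [norm_zero] at hs3; exact zero_ne_one hs3
  set Q' : ℚ_[ℓ][X] := C ((s ^ Q.natDegree)⁻¹) * Q.comp (C s * X) with hQ'
  have hdeg : Q'.natDegree = Q.natDegree := by
    rw [hQ', natDegree_C_mul (inv_ne_zero (pow_ne_zero _ hs0)), natDegree_comp,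
      natDegree_C_mul hs0, natDegree_X, mul_one]
  have hmon : Q'.Monic := by
    unfold Monic leadingCoeff
    rw [hdeg, hQ', coeff_C_mul, comp_C_mul_X_coeff]
    have : Q.coeff Q.natDegree = 1 := hQ
    rw [this, one_mul, inv_mul_cancel₀ (pow_ne_zero _ hs0)]
  have hev : ∀ x : AlgebraicClosure ℚ_[ℓ],
      aeval x Q' = 0 ↔ aeval (algebraMap ℚ_[ℓ] (AlgebraicClosure ℚ_[ℓ]) s * x) Q = 0 := by
    intro x
    rw [hQ', map_mul, aeval_C, aeval_comp, map_mul, aeval_C, aeval_X]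
    constructor
    · intro h
      rcases mul_eq_zero.1 h with h | h
      · exact absurd h ((_root_.map_ne_zero _).2 (inv_ne_zero (pow_ne_zero _ hs0)))
      · exact h
    · intro h; rw [h, mul_zero]
  refine ⟨s, Q', hs1, hmon, hdeg.trans hQn, ?_, ?_, hev⟩
  · intro x hx
    obtain ⟨h1, h2⟩ := hroots _ ((hev x).1 hx)
    have hsA : algebraMap ℚ_[ℓ] (AlgebraicClosure ℚ_[ℓ]) s ≠ 0 := (_root_.map_ne_zero _).2 hs0
    have hx0 : x ≠ 0 := by rintro rfl; exact h1 (mul_zero _)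
    refine ⟨hx0, (hev _).2 ?_⟩
    have e : algebraMap ℚ_[ℓ] (AlgebraicClosure ℚ_[ℓ]) c /
        (algebraMap ℚ_[ℓ] (AlgebraicClosure ℚ_[ℓ]) s * x) =
        algebraMap ℚ_[ℓ] (AlgebraicClosure ℚ_[ℓ]) s * x⁻¹ := by
      rw [← hs1, map_mul]
      field_simp
    rw [← e]; exact h2
  · have hr := resc_twist k Q s hs0
    rw [← hQ'] at hr
    set t : ℚ_[ℓ] := (s - 1) * ((ℓ : ℚ_[ℓ]) ^ k)⁻¹ with ht
    set R := resc ℓ k Q with hR
    set δ : ℝ := max ‖s - 1‖ ‖t‖ with hδ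
    have hδ0 : 0 ≤ δ := le_max_of_le_left (norm_nonneg _)
    have htn : ‖t‖ = ‖c - 1‖ * (ℓ : ℝ) ^ k := by
      rw [ht, norm_mul, hs2, norm_inv, norm_pow, Padic.norm_p, inv_pow, inv_inv]
    have hδ' : δ < ε' := by
      refine max_lt (by rw [hs2]; exact hc1) ?_
      rw [htn]
      calc ‖c - 1‖ * (ℓ : ℝ) ^ k < (ε' * ((ℓ : ℝ) ^ k)⁻¹) * (ℓ : ℝ) ^ k :=
            mul_lt_mul_of_pos_right hc hℓk
        _ = ε' := by rw [mul_assoc, inv_mul_cancel₀ hℓk.ne', mul_one]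
    have hδ1 : δ ≤ 1 := hδ'.le.trans hε'1
    set p : ℚ_[ℓ][X] := C s * X + C t with hp
    have hp1 : Bd 1 p := by
      refine Bd.add ?_ ?_
      · have := Bd.mul (norm_nonneg s) zero_le_one Bd.C (Bd.X (ℓ := ℓ))
        rw [hs3, one_mul] at this
        exact this
      · exact Bd.C.mono ((le_max_right _ _).trans hδ1)
    have hpX : Bd δ (p - X) := by
      have e : p - X = C (s - 1) * X + C t := by rw [hp, C_sub, C_1]; ring
      rw [e]
      refine Bd.add ?_ (Bd.C.mono (le_max_right _ _))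
      have := Bd.mul (norm_nonneg (s - 1)) zero_le_one Bd.C (Bd.X (ℓ := ℓ))
      rw [mul_one] at this
      exact this.mono (le_max_left _ _)
    have hRM : Bd M R := by
      intro j
      have e : R.coeff j = (R - R₀).coeff j + R₀.coeff j := by rw [coeff_sub]; ring
      rw [e]
      refine (IsUltrametricDist.norm_add_le_max _ _).trans (max_le ?_ (hR₀M j))
      exact (hRes j).le.trans (hε'1.trans hM1)
    have hA : Bd (M * δ) (R.comp p - R) := Bd.comp_sub hδ0 hM0.le hRM hp1 hpX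
    have hB : Bd M (R.comp p) := Bd.comp hM0.le hRM hp1
    have hsn : ‖(s ^ Q.natDegree)⁻¹ - 1‖ ≤ δ := by
      have hsN : ‖s ^ Q.natDegree‖ = 1 := by rw [norm_pow, hs3, one_pow]
      have hpw : ∀ m : ℕ, ‖s ^ m - 1‖ ≤ ‖s - 1‖ := by
        intro m
        induction m with
        | zero => rw [pow_zero, sub_self, norm_zero]; exact norm_nonneg _
        | succ m ih =>
          have e : s ^ (m + 1) - 1 = s ^ m * (s - 1) + (s ^ m - 1) := by ring
          rw [e]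
          refine (IsUltrametricDist.norm_add_le_max _ _).trans (max_le ?_ ih)
          rw [norm_mul, norm_pow, hs3, one_pow, one_mul]
      have e : (s ^ Q.natDegree)⁻¹ - 1 = (s ^ Q.natDegree)⁻¹ * (1 - s ^ Q.natDegree) := by
        rw [mul_sub, mul_one, inv_mul_cancel₀ (pow_ne_zero _ hs0)]
      rw [e, norm_mul, norm_inv, hsN, inv_one, one_mul, norm_sub_rev]
      exact (hpw _).trans (le_max_left _ _)
    intro j
    have e : resc ℓ k Q' - R₀ = (C ((s ^ Q.natDegree)⁻¹ - 1) * R.comp p + (R.comp p - R)) +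
        (R - R₀) := by
      rw [hr, C_sub, C_1]; ring
    rw [e, coeff_add]
    have hAB : Bd (M * δ) (C ((s ^ Q.natDegree)⁻¹ - 1) * R.comp p + (R.comp p - R)) := by
      refine Bd.add ?_ hA
      have := Bd.mul hδ0 hM0.le (Bd.C.mono hsn) hB
      rwa [mul_comm] at this
    refine lt_of_le_of_lt (IsUltrametricDist.norm_add_le_max _ _) (max_lt ?_ ?_)
    · exact lt_of_le_of_lt (hAB j) (lt_of_lt_of_le (mul_lt_mul_of_pos_left hδ' hM0) hε'M)
    · refine lt_of_lt_of_le (hRes j) (le_trans ?_ hε'M)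
      nlinarith

end Pool.Agent.Q238.OI.TWIST
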